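import Pool.Agent.Helper47.T3.Goals

/-!
# Project FLG (n = 3), packet T3A: elementary facts on quaternions and `ℝ⁴`
-/

set_option autoImplicit false

namespace Pool.Agent.Helper61.T3

open Finset Pool.Agent.Helper73 Pool.Agent.Helper47 Pool.Agent.Helper47.T3

theorem qv0 (x : SN.EE 3) : qv 0 x 0 = - x 1 ∧ qv 0 x 1 = x 0 ∧ qv 0 x 2 = x 3 ∧ qv 0 x 3 = - x 2 := by
  refine ⟨?_, ?_, ?_, ?_⟩
  · show (TS.toQ x * TS.qe 0).re = _
    rw [Quaternion.re_mul]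
    simp [TS.toQ, TS.qe]
  · show (TS.toQ x * TS.qe 0).imI = _
    rw [Quaternion.imI_mul]
    simp [TS.toQ, TS.qe]
  · show (TS.toQ x * TS.qe 0).imJ = _
    rw [Quaternion.imJ_mul]
    simp [TS.toQ, TS.qe]
  · show (TS.toQ x * TS.qe 0).imK = _
    rw [Quaternion.imK_mul]
    simp [TS.toQ, TS.qe]

theorem qv1 (x : SN.EE 3) : qv 1 x 0 = - x 2 ∧ qv 1 x 1 = - x 3 ∧ qv 1 x 2 = x 0 ∧ qv 1 x 3 = x 1 := by
  refine ⟨?_, ?_, ?_, ?_⟩
  · show (TS.toQ x * TS.qe 1).re = _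
    rw [Quaternion.re_mul]
    simp [TS.toQ, TS.qe]
  · show (TS.toQ x * TS.qe 1).imI = _
    rw [Quaternion.imI_mul]
    simp [TS.toQ, TS.qe]
  · show (TS.toQ x * TS.qe 1).imJ = _
    rw [Quaternion.imJ_mul]
    simp [TS.toQ, TS.qe]
  · show (TS.toQ x * TS.qe 1).imK = _
    rw [Quaternion.imK_mul]
    simp [TS.toQ, TS.qe]

theorem qv2 (x : SN.EE 3) : qv 2 x 0 = - x 3 ∧ qv 2 x 1 = x 2 ∧ qv 2 x 2 = - x 1 ∧ qv 2 x 3 = x 0 := by
  refine ⟨?_, ?_, ?_, ?_⟩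
  · show (TS.toQ x * TS.qe 2).re = _
    rw [Quaternion.re_mul]
    simp [TS.toQ, TS.qe]
  · show (TS.toQ x * TS.qe 2).imI = _
    rw [Quaternion.imI_mul]
    simp [TS.toQ, TS.qe]
  · show (TS.toQ x * TS.qe 2).imJ = _
    rw [Quaternion.imJ_mul]
    simp [TS.toQ, TS.qe]
  · show (TS.toQ x * TS.qe 2).imK = _
    rw [Quaternion.imK_mul]
    simp [TS.toQ, TS.qe]

theorem nsq (x : SN.EE 3) : ‖x‖ ^ 2 = x 0 ^ 2 + x 1 ^ 2 + x 2 ^ 2 + x 3 ^ 2 := by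
  rw [EuclideanSpace.norm_sq_eq]
  rw [Fin.sum_univ_four]
  simp

theorem frq (x : SN.EE 3) (w : Fin (3 + 1) → ℝ) (i : Fin 3) :
    TS.fr (TS.toQ x) (TS.toQ (WithLp.toLp 2 w)) i = ∑ a, qv i x a * w a := by
  obtain ⟨a1, a2, a3, a4⟩ := qv0 x
  obtain ⟨b1, b2, b3, b4⟩ := qv1 x
  obtain ⟨c1, c2, c3, c4⟩ := qv2 x
  fin_cases i
  · show (star (TS.toQ x) * TS.toQ (WithLp.toLp 2 w)).imI = ∑ a, qv 0 x a * w a
    rw [Fin.sum_univ_four, a1, a2, a3, a4, Quaternion.imI_mul, Quaternion.re_star, Quaternion.imI_star, Quaternion.imJ_star,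
      Quaternion.imK_star]
    simp only [TS.toQ]
    ring
  · show (star (TS.toQ x) * TS.toQ (WithLp.toLp 2 w)).imJ = ∑ a, qv 1 x a * w a
    rw [Fin.sum_univ_four, b1, b2, b3, b4, Quaternion.imJ_mul, Quaternion.re_star, Quaternion.imI_star, Quaternion.imJ_star,
      Quaternion.imK_star]
    simp only [TS.toQ]
    ring
  · show (star (TS.toQ x) * TS.toQ (WithLp.toLp 2 w)).imK = ∑ a, qv 2 x a * w a
    rw [Fin.sum_univ_four, c1, c2, c3, c4, Quaternion.imK_mul, Quaternion.re_star, Quaternion.imI_star, Quaternion.imJ_star,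
      Quaternion.imK_star]
    simp only [TS.toQ]
    ring

theorem qx (i : Fin 3) (x : SN.EE 3) : ∑ a, qv i x a * x a = 0 := by
  obtain ⟨a1, a2, a3, a4⟩ := qv0 x
  obtain ⟨b1, b2, b3, b4⟩ := qv1 x
  obtain ⟨c1, c2, c3, c4⟩ := qv2 x
  fin_cases i
  · show ∑ a, qv 0 x a * x a = 0
    rw [Fin.sum_univ_four, a1, a2, a3, a4]
    ring
  · show ∑ a, qv 1 x a * x a = 0
    rw [Fin.sum_univ_four, b1, b2, b3, b4]
    ring
  · show ∑ a, qv 2 x a * x a = 0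
    rw [Fin.sum_univ_four, c1, c2, c3, c4]
    ring

theorem qq (i j : Fin 3) (x : SN.EE 3) : ∑ a, qv i x a * qv j x a = if i = j then ‖x‖ ^ 2 else 0 := by
  obtain ⟨a1, a2, a3, a4⟩ := qv0 x
  obtain ⟨b1, b2, b3, b4⟩ := qv1 x
  obtain ⟨c1, c2, c3, c4⟩ := qv2 x
  have h := nsq x
  fin_cases i <;> fin_cases j
  · show ∑ a, qv 0 x a * qv 0 x a = ‖x‖ ^ 2
    rw [Fin.sum_univ_four, a1, a2, a3, a4, h]
    ring
  · show ∑ a, qv 0 x a * qv 1 x a = 0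
    rw [Fin.sum_univ_four, a1, a2, a3, a4, b1, b2, b3, b4]
    ring
  · show ∑ a, qv 0 x a * qv 2 x a = 0
    rw [Fin.sum_univ_four, a1, a2, a3, a4, c1, c2, c3, c4]
    ring
  · show ∑ a, qv 1 x a * qv 0 x a = 0
    rw [Fin.sum_univ_four, a1, a2, a3, a4, b1, b2, b3, b4]
    ring
  · show ∑ a, qv 1 x a * qv 1 x a = ‖x‖ ^ 2
    rw [Fin.sum_univ_four, b1, b2, b3, b4, h]
    ring
  · show ∑ a, qv 1 x a * qv 2 x a = 0
    rw [Fin.sum_univ_four, b1, b2, b3, b4, c1, c2, c3, c4]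
    ring
  · show ∑ a, qv 2 x a * qv 0 x a = 0
    rw [Fin.sum_univ_four, a1, a2, a3, a4, c1, c2, c3, c4]
    ring
  · show ∑ a, qv 2 x a * qv 1 x a = 0
    rw [Fin.sum_univ_four, b1, b2, b3, b4, c1, c2, c3, c4]
    ring
  · show ∑ a, qv 2 x a * qv 2 x a = ‖x‖ ^ 2
    rw [Fin.sum_univ_four, c1, c2, c3, c4, h]
    ring

/-- expansion of a vector in the orthogonal basis -/
theorem expand (x : SN.EE 3) (w : Fin (3 + 1) → ℝ) (a : Fin (3 + 1)) :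
    ‖x‖ ^ 2 * w a = (∑ b, w b * x b) * x a + ∑ i, (∑ b, qv i x b * w b) * qv i x a := by
  obtain ⟨a1, a2, a3, a4⟩ := qv0 x
  obtain ⟨b1, b2, b3, b4⟩ := qv1 x
  obtain ⟨c1, c2, c3, c4⟩ := qv2 x
  rw [nsq x, Fin.sum_univ_four, Fin.sum_univ_three, Fin.sum_univ_four, Fin.sum_univ_four, Fin.sum_univ_four,
    a1, a2, a3, a4, b1, b2, b3, b4, c1, c2, c3, c4]
  fin_cases a
  · show _ * w 0 = _ * x 0 + (_ * qv 0 x 0 + _ * qv 1 x 0 + _ * qv 2 x 0)
    rw [a1, b1, c1]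
    ring
  · show _ * w 1 = _ * x 1 + (_ * qv 0 x 1 + _ * qv 1 x 1 + _ * qv 2 x 1)
    rw [a2, b2, c2]
    ring
  · show _ * w 2 = _ * x 2 + (_ * qv 0 x 2 + _ * qv 1 x 2 + _ * qv 2 x 2)
    rw [a3, b3, c3]
    ring
  · show _ * w 3 = _ * x 3 + (_ * qv 0 x 3 + _ * qv 1 x 3 + _ * qv 2 x 3)
    rw [a4, b4, c4]
    ring

end Pool.Agent.Helper61.T3

namespace Pool.Agent.Helper47.T3

open Finset Pool.Agent.Helper73 Pool.Agent.Helper61.T3

/-- PACKET T3A -/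
theorem t_T3A : A_T3A := by
  have h1 : ∀ x : SN.EE 3, TS.toQ x = Quaternion.linearIsometryEquivTuple.symm x := fun x => rfl
  have h2 : ∀ q : TS.HH, ofQ q = Quaternion.linearIsometryEquivTuple q := fun q => rfl
  refine ⟨fun x => ⟨?_, ?_⟩, fun q => ⟨?_, ?_⟩, fun x y => ⟨?_, ?_⟩, fun r x => ?_, ?_, ?_,
    fun i j x => ⟨qx i x, qq i j x⟩, fun x hx w hw => ?_, fun x hx v => ⟨?_, ?_⟩⟩
  · rw [h2, h1, LinearIsometryEquiv.apply_symm_apply]
  · rw [h1, LinearIsometryEquiv.norm_map]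
  · rw [h2, h1, LinearIsometryEquiv.symm_apply_apply]
  · rw [h2, LinearIsometryEquiv.norm_map]
  · rw [h1, h1, h1, map_add]
  · rw [h1, h1, h1, map_sub]
  · rw [h1, h1, map_smul]
  · exact (Quaternion.linearIsometryEquivTuple.symm).contDiff
  · exact (Quaternion.linearIsometryEquivTuple).contDiff
  · funext a
    have h3 := expand x w a
    rw [hx, one_pow, one_mul, show ∑ b, w b * x b = 0 from hw, zero_mul, zero_add] at h3
    rw [h3]
    refine Finset.sum_congr rfl fun i _ => ?_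
    rw [frq]
  · unfold SN.Tan
    simp_rw [Finset.sum_mul]
    rw [Finset.sum_comm]
    refine Finset.sum_eq_zero fun i _ => ?_
    simp_rw [mul_assoc]
    rw [← Finset.mul_sum, qx, mul_zero]
  · funext i
    rw [frq]
    simp_rw [Finset.mul_sum]
    rw [Finset.sum_comm]
    have h3 : ∀ j, ∑ a, qv i x a * (v j * qv j x a) = if i = j then v j else 0 := by
      intro j
      have h4 : ∀ a, qv i x a * (v j * qv j x a) = v j * (qv i x a * qv j x a) := fun a => by ring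
      simp_rw [h4]
      rw [← Finset.mul_sum, qq, hx]
      split_ifs with h
      · ring
      · ring
    simp_rw [h3]
    rw [Finset.sum_ite_eq Finset.univ i v, if_pos (Finset.mem_univ i)]

end Pool.Agent.Helper47.T3
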