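import Pool.Agent.Helper47.T3.Goals

/-!
# Project FLG (n = 3), packet T3V: the volumes agree
-/

set_option autoImplicit false

namespace Pool.Agent.Helper47.T3

open Finset MeasureTheory Pool.Agent.Helper73

/-- PACKET T3V -/
theorem t_T3V (hT3A : A_T3A) : A_T3V := by
  intro M
  obtain ⟨h1, h2, -, -, -, -, hq, -, -⟩ := hT3A
  unfold TS.gvol SN.gvol
  refine integral_congr_ae (Filter.Eventually.of_forall fun y => ?_)
  have hy : ‖(y : SN.EE 3)‖ = 1 := by simp
  obtain ⟨x, hxy⟩ : ∃ x : SN.EE 3, x = (y : SN.EE 3) := ⟨_, rfl⟩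
  rw [← hxy] at hy
  beta_reduce
  rw [← hxy]
  congr 1
  -- the orthogonal matrix
  obtain ⟨O, hO0, hO1⟩ : ∃ O : Matrix (Fin (3 + 1)) (Fin (3 + 1)) ℝ, (∀ a, O 0 a = x a) ∧
      ∀ (i : Fin 3) a, O i.succ a = qv i x a :=
    ⟨Matrix.of (Fin.cons (fun a => x a) (fun i a => qv i x a)), fun a => rfl, fun i a => rfl⟩
  have hxx : ∑ a, x a * x a = 1 := by
    have h3 := EuclideanSpace.norm_sq_eq x
    rw [hy, one_pow] at h3
    rw [h3]
    refine Finset.sum_congr rfl fun a _ => ?_
    rw [Real.norm_eq_abs, sq_abs, sq]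
  have hOO : O * O.transpose = 1 := by
    ext k l
    rw [Matrix.mul_apply]
    simp only [Matrix.transpose_apply]
    refine Fin.cases ?_ (fun i => ?_) k <;> refine Fin.cases ?_ (fun j => ?_) l
    · simp only [hO0, hxx, Matrix.one_apply_eq]
    · simp only [hO0, hO1]
      rw [Matrix.one_apply_ne (Fin.succ_ne_zero j).symm]
      have := (hq j j x).1
      rw [← this]
      exact Finset.sum_congr rfl fun a _ => mul_comm _ _
    · simp only [hO0, hO1]
      rw [Matrix.one_apply_ne (Fin.succ_ne_zero i)]
      exact (hq i i x).1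
    · simp only [hO1]
      rw [(hq i j x).2, hy]
      by_cases hij : i = j
      · subst hij
        simp
      · rw [if_neg hij, Matrix.one_apply_ne (fun h => hij (Fin.succ_injective _ h))]
  have hdet : O.det * O.det = 1 := by
    have := congrArg Matrix.det hOO
    rwa [Matrix.det_mul, Matrix.det_transpose, Matrix.det_one] at this
  have hrad : ∀ a, ∑ b, M.G x a b * x b = x a := M.radial x hy
  have hentry : ∀ k l, (O * M.G x * O.transpose) k l = SN.ip M.G x (O k) (O l) := by
    intro k l
    rw [Matrix.mul_apply]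
    simp only [Matrix.mul_apply, Matrix.transpose_apply]
    unfold SN.ip
    simp_rw [Finset.sum_mul]
    rw [Finset.sum_comm]
    refine Finset.sum_congr rfl fun a _ => Finset.sum_congr rfl fun b _ => ?_
    ring
  have hcol : ∀ k, (O * M.G x * O.transpose) k 0 = if k = 0 then 1 else 0 := by
    intro k
    rw [hentry]
    unfold SN.ip
    have e1 : ∀ a, ∑ b, M.G x a b * O k a * O 0 b = O k a * x a := by
      intro a
      have e2 : ∀ b, M.G x a b * O k a * O 0 b = O k a * (M.G x a b * x b) := by
        intro b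
        rw [hO0]
        ring
      simp_rw [e2]
      rw [← Finset.mul_sum, hrad]
    simp_rw [e1]
    refine Fin.cases ?_ (fun i => ?_) k
    · simp only [hO0, hxx, if_true]
    · simp only [hO1]
      rw [if_neg (Fin.succ_ne_zero i)]
      exact (hq i i x).1
  have hblock : (O * M.G x * O.transpose).submatrix Fin.succ Fin.succ = g3 M.G (TS.toQ x) := by
    ext i j
    rw [Matrix.submatrix_apply, hentry]
    unfold g3
    rw [Matrix.of_apply, (h1 x).1, (h1 x).2, hy, one_pow, div_one]
    have e1 : ∀ i : Fin 3, O i.succ = fun a => qv i x a := fun i => funext (hO1 i)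
    rw [e1, e1]
  have hfin : (O * M.G x * O.transpose).det = (g3 M.G (TS.toQ x)).det := by
    rw [Matrix.det_succ_column_zero, Fin.sum_univ_succ, hcol, if_pos rfl, ← hblock]
    have e1 : ∑ i : Fin 3, (-1 : ℝ) ^ ((Fin.succ i : Fin (3 + 1)) : ℕ) * (O * M.G x * O.transpose) i.succ 0 *
        ((O * M.G x * O.transpose).submatrix i.succ.succAbove Fin.succ).det = 0 := by
      refine Finset.sum_eq_zero fun i _ => ?_
      rw [hcol, if_neg (Fin.succ_ne_zero i), mul_zero, zero_mul]
    rw [e1]
    simp
  rw [← hfin, Matrix.det_mul, Matrix.det_mul, Matrix.det_transpose]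
  linear_combination (M.G x).det * hdet

end Pool.Agent.Helper47.T3
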